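import Pool.Agent.Helper868.LFS8

namespace Pool.Agent.Results.MP_0b7c94_al.NoFiniteSimpleSubgroup

/-- A group is locally finite if every finitely generated subgroup of it is finite. -/
def LocallyFinite (G : Type) [Group G] : Prop := ∀ K : Subgroup G, K.FG → Finite K

/-- There is an infinite, locally finite, simple group in which every finite simple subgroup is
cyclic of prime order; in other words, a group with no nonabelian finite simple subgroup. -/
theorem result : ∃ (G : Type) (_ : Group G),
    Infinite G ∧ LocallyFinite G ∧ IsSimpleGroup G ∧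
      ∀ K : Subgroup G, Finite K → IsSimpleGroup K → IsCyclic K ∧ (Nat.card K).Prime := by
  obtain ⟨G, hG, h1, h2, h3, h4⟩ := H868.LFS.main
  refine ⟨G, hG, h1, h3, h2, ?_⟩
  intro K hK hs
  have hc := h4 K hK hs
  letI : CommGroup K := { (inferInstance : Group K) with mul_comm := hc }
  haveI : IsSimpleGroup K := hs
  haveI : Finite K := hK
  have hp : (Nat.card K).Prime := IsSimpleGroup.prime_card
  haveI : Fact (Nat.card K).Prime := ⟨hp⟩
  exact ⟨isCyclic_of_prime_card rfl, hp⟩

end Pool.Agent.Results.MP_0b7c94_al.NoFiniteSimpleSubgroup
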